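import Pool.Agent.E8helper63.QC.PB

/-!
# Project QC (poster helper19): piece QC7 `S_ASY`
-/

set_option autoImplicit false
open MeasureTheory Filter Topology

namespace Pool.Agent.E8helper63.QC

open Pool.Agent.E8helper19.QC

noncomputable section

/-- `|log ‖x‖ - log ‖x-y‖| - ε ‖x-y‖^(-s)` cut at `0` -/
def hcut {n : ℕ} (s ε : ℝ) (x y : E n) : ℝ :=
  max 0 (|Real.log ‖x‖ - Real.log ‖x - y‖| - ε * ‖x - y‖ ^ (-s))

lemma log_one_add_sub (s ε r : ℝ) (hs : 0 < s) (hε : 0 < ε) (hr : 0 < r) :
    Real.log (1 + r) - Real.log r - ε * r ^ (-s) ≤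
      Real.log 2 + |(1 + Real.log (ε * s)) / s| := by
  have hl2 : 0 ≤ Real.log 2 := Real.log_nonneg (by norm_num)
  have hab := abs_nonneg ((1 + Real.log (ε * s)) / s)
  have hpos : 0 < r ^ (-s) := Real.rpow_pos_of_pos hr _
  rcases le_total 1 r with h | h
  · have h1 : Real.log (1 + r) ≤ Real.log (2 * r) := Real.log_le_log (by linarith) (by linarith)
    rw [Real.log_mul (by norm_num) hr.ne'] at h1
    have : 0 ≤ ε * r ^ (-s) := by positivity
    linarith
  · have h1 : Real.log (1 + r) ≤ Real.log 2 := Real.log_le_log (by linarith) (by linarith)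
    have h2 := Real.log_le_sub_one_of_pos (show 0 < r ^ (-s) * (ε * s) by positivity)
    rw [Real.log_mul hpos.ne' (by positivity), Real.log_rpow hr] at h2
    have h3 : -Real.log r - ε * r ^ (-s) ≤ -((1 + Real.log (ε * s)) / s) := by
      rw [← neg_div, le_div_iff₀ hs]
      nlinarith
    have h4 := neg_abs_le ((1 + Real.log (ε * s)) / s)
    linarith

lemma log_bound {n : ℕ} (s ε : ℝ) (hs : 0 < s) (hε : 0 < ε) (x y : E n) (hx : 1 ≤ ‖x‖) :
    |Real.log ‖x‖ - Real.log ‖x - y‖| - ε * ‖x - y‖ ^ (-s) ≤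
      (Real.log 2 + |(1 + Real.log (ε * s)) / s|) + Real.log (1 + ‖y‖) := by
  have hl2 : 0 ≤ Real.log 2 := Real.log_nonneg (by norm_num)
  have hab := abs_nonneg ((1 + Real.log (ε * s)) / s)
  have hy := norm_nonneg y
  have hly : 0 ≤ Real.log (1 + ‖y‖) := Real.log_nonneg (by linarith)
  have hlx : 0 ≤ Real.log ‖x‖ := Real.log_nonneg hx
  rcases (norm_nonneg (x - y)).eq_or_lt with h | h
  · have hxy : x = y := by
      rw [eq_comm, norm_eq_zero, sub_eq_zero] at h
      exact h
    subst hxy
    have : Real.log ‖x‖ ≤ Real.log (1 + ‖x‖) := Real.log_le_log (by linarith) (by linarith)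
    simp only [sub_self, norm_zero, Real.log_zero, sub_zero, abs_of_nonneg hlx,
      Real.zero_rpow (by linarith : (-s) ≠ 0), mul_zero]
    linarith
  · have hpos : 0 ≤ ε * ‖x - y‖ ^ (-s) := by positivity
    rcases abs_cases (Real.log ‖x‖ - Real.log ‖x - y‖) with ⟨h1, -⟩ | ⟨h1, -⟩
    · rw [h1]
      have h2 : Real.log ‖x‖ ≤ Real.log (1 + ‖x - y‖) + Real.log (1 + ‖y‖) := by
        rw [← Real.log_mul (by positivity) (by positivity)]
        apply Real.log_le_log (by linarith)
        have h3 : ‖x‖ ≤ ‖x - y‖ + ‖y‖ := by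
          have := norm_add_le (x - y) y
          rwa [sub_add_cancel] at this
        nlinarith
      have h4 := log_one_add_sub s ε ‖x - y‖ hs hε h
      linarith
    · rw [h1]
      have h2 : Real.log ‖x - y‖ ≤ Real.log ‖x‖ + Real.log (1 + ‖y‖) := by
        rw [← Real.log_mul (by positivity) (by positivity)]
        apply Real.log_le_log h
        have h3 := norm_sub_le x y
        nlinarith
      linarith

lemma tendsto_log_diff {n : ℕ} (y : E n) :
    Tendsto (fun x : E n => Real.log ‖x‖ - Real.log ‖x - y‖) (cocompact (E n)) (𝓝 0) := by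
  have hn : Tendsto (fun x : E n => ‖x‖) (cocompact (E n)) atTop := tendsto_norm_cocompact_atTop
  have h1 : Tendsto (fun x : E n => ‖x - y‖ / ‖x‖) (cocompact (E n)) (𝓝 1) := by
    rw [tendsto_iff_norm_sub_tendsto_zero]
    have h2 : Tendsto (fun x : E n => ‖y‖ / ‖x‖) (cocompact (E n)) (𝓝 0) :=
      tendsto_const_nhds.div_atTop hn
    refine squeeze_zero' (Eventually.of_forall fun x => norm_nonneg _) ?_ h2
    filter_upwards [hn.eventually_ge_atTop 1] with x hx
    have hx0 : 0 < ‖x‖ := by linarith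
    rw [div_sub_one hx0.ne', norm_div, norm_norm]
    apply div_le_div_of_nonneg_right _ hx0.le
    rw [Real.norm_eq_abs]
    have := abs_norm_sub_norm_le (x - y) x
    simpa using this
  have h3 := ((Real.continuousAt_log (show (1:ℝ) ≠ 0 by norm_num)).tendsto.comp h1).neg
  rw [Real.log_one, neg_zero] at h3
  refine h3.congr' ?_
  filter_upwards [hn.eventually_ge_atTop 1, hn.eventually_gt_atTop ‖y‖] with x hx hxy
  have hx0 : 0 < ‖x‖ := by linarith
  have hxy0 : 0 < ‖x - y‖ := by
    rw [norm_pos_iff, sub_ne_zero]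
    rintro rfl
    exact lt_irrefl _ hxy
  simp only [Function.comp_apply]
  rw [Real.log_div hxy0.ne' hx0.ne']
  ring

lemma tendsto_hcut {n : ℕ} {ν : Measure (E n)} {s M : ℝ} (hs : 0 < s) (hg : Good ν s M)
    {ε : ℝ} (hε : 0 < ε) :
    Tendsto (fun x : E n => ∫ y, hcut s ε x y ∂ν) (cocompact (E n)) (𝓝 0) := by
  have := hg.fin
  have hn : Tendsto (fun x : E n => ‖x‖) (cocompact (E n)) atTop := tendsto_norm_cocompact_atTop
  have hcg : (cocompact (E n)).IsCountablyGenerated := by
    rw [← Metric.cobounded_eq_cocompact, ← comap_norm_atTop]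
    infer_instance
  have h0 : (0 : ℝ) = ∫ y, (fun _ : E n => (0 : ℝ)) y ∂ν := by simp
  rw [h0]
  apply tendsto_integral_filter_of_dominated_convergence
    (fun y => (Real.log 2 + |(1 + Real.log (ε * s)) / s|) + Real.log (1 + ‖y‖))
  · apply Eventually.of_forall
    intro x
    apply Measurable.aestronglyMeasurable
    unfold hcut
    fun_prop
  · filter_upwards [hn.eventually_ge_atTop 1] with x hx
    apply Eventually.of_forall
    intro y
    have hl2 : 0 ≤ Real.log 2 := Real.log_nonneg (by norm_num)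
    have hab := abs_nonneg ((1 + Real.log (ε * s)) / s)
    have hy := norm_nonneg y
    have hly : 0 ≤ Real.log (1 + ‖y‖) := Real.log_nonneg (by linarith)
    rw [Real.norm_of_nonneg (show 0 ≤ hcut s ε x y from le_max_left _ _)]
    exact max_le (by linarith) (log_bound s ε hs hε x y hx)
  · exact (integrable_const _).add (int_log_one hg)
  · apply Eventually.of_forall
    intro y
    have h1 := (tendsto_log_diff y).abs
    rw [abs_zero] at h1
    refine squeeze_zero (fun x => le_max_left _ _) (fun x => ?_) h1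
    apply max_le (abs_nonneg _)
    have : 0 ≤ ε * ‖x - y‖ ^ (-s) := by positivity
    linarith

/-- **QC7.** -/
theorem t_ASY : S_ASY := by
  intro n ν s M hs hg θ hθ
  have := hg.fin
  obtain ⟨B, hB0, hB⟩ := dens_bd hθ
  have hM0 : 0 ≤ M := (integral_nonneg fun y => by positivity).trans (hg.rb 0)
  rw [Metric.tendsto_nhds]
  intro e he
  -- choice of ε
  obtain ⟨ε, hε, hε2⟩ : ∃ ε : ℝ, 0 < ε ∧ B * (ε * M) < e / 2 := by
    refine ⟨e / (4 * (B * M + 1)), by positivity, ?_⟩
    have hBM : 0 ≤ B * M := mul_nonneg hB0 hM0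
    rw [show B * (e / (4 * (B * M + 1)) * M) = e / 4 * (B * M / (B * M + 1)) by
      field_simp]
    have : B * M / (B * M + 1) ≤ 1 := by
      rw [div_le_one (by positivity)]
      linarith
    nlinarith
  have h1 := ((tendsto_hcut hs hg hε).const_mul B)
  rw [mul_zero] at h1
  filter_upwards [(tendsto_order.1 h1).2 (e / 2) (by linarith)] with x hx
  rw [Real.dist_eq, sub_zero]
  have hi1 : Integrable (fun y => Real.log ‖x‖ - Real.log ‖x - y‖) ν :=
    (integrable_const _).sub (int_log hs hg x)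
  have hi2 : Integrable (fun y => (Real.log ‖x‖ - Real.log ‖x - y‖) * θ y) ν :=
    int_mul_dens hθ hi1
  have h2 : Pot ν θ x + Real.log ‖x‖ = ∫ y, (Real.log ‖x‖ - Real.log ‖x - y‖) * θ y ∂ν := by
    have h3 : ∀ y, (Real.log ‖x‖ - Real.log ‖x - y‖) * θ y =
        Real.log ‖x‖ * θ y + -Real.log ‖x - y‖ * θ y := fun y => by ring
    simp only [h3]
    rw [integral_add ((int_dens hθ).const_mul _) (int_log_mul hs hg hθ x), integral_const_mul,
      hθ.one, mul_one, add_comm]
    rfl
  rw [h2]
  have hih : Integrable (fun y => hcut s ε x y) ν := by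
    have h4 : Integrable (fun y => |Real.log ‖x‖ - Real.log ‖x - y‖|) ν := hi1.abs
    refine h4.mono' ?_ (Eventually.of_forall fun y => ?_)
    · apply Measurable.aestronglyMeasurable
      unfold hcut
      fun_prop
    · unfold hcut
      rw [Real.norm_of_nonneg (le_max_left _ _)]
      apply max_le (abs_nonneg _)
      have : 0 ≤ ε * ‖x - y‖ ^ (-s) := by positivity
      linarith
  calc |∫ y, (Real.log ‖x‖ - Real.log ‖x - y‖) * θ y ∂ν|
      ≤ ∫ y, |(Real.log ‖x‖ - Real.log ‖x - y‖) * θ y| ∂ν := abs_integral_le_integral_abs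
    _ ≤ ∫ y, B * (hcut s ε x y + ε * ‖x - y‖ ^ (-s)) ∂ν := by
        apply integral_mono hi2.abs ((hih.add ((hg.rint x).const_mul _)).const_mul _)
        intro y
        show |(Real.log ‖x‖ - Real.log ‖x - y‖) * θ y| ≤ B * (hcut s ε x y + ε * ‖x - y‖ ^ (-s))
        rw [abs_mul, abs_of_nonneg (hθ.nn y), mul_comm]
        have h5 : |Real.log ‖x‖ - Real.log ‖x - y‖| ≤ hcut s ε x y + ε * ‖x - y‖ ^ (-s) := by
          have := le_max_right 0 (|Real.log ‖x‖ - Real.log ‖x - y‖| - ε * ‖x - y‖ ^ (-s))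
          unfold hcut
          linarith
        exact mul_le_mul (hB y) h5 (abs_nonneg _) hB0
    _ = B * ((∫ y, hcut s ε x y ∂ν) + ε * ∫ y, ‖x - y‖ ^ (-s) ∂ν) := by
        rw [integral_const_mul, integral_add hih ((hg.rint x).const_mul _), integral_const_mul]
    _ ≤ B * ((∫ y, hcut s ε x y ∂ν) + ε * M) := by
        apply mul_le_mul_of_nonneg_left _ hB0
        have := mul_le_mul_of_nonneg_left (hg.rb x) hε.le
        linarith
    _ < e := by
        rw [mul_add]
        linarith

end

end Pool.Agent.E8helper63.QC
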