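import Pool.Agent.E8helper19.QC.Stm

/-!
# Project QC (poster helper19): pieces QC3 `S_PB` and QC7 `S_ASY`
-/

set_option autoImplicit false
open MeasureTheory Filter Topology

namespace Pool.Agent.E8helper63.QC

open Pool.Agent.E8helper19.QC

noncomputable section

lemma neg_log_le (s r : ℝ) (hs : 0 < s) (hr : 0 ≤ r) : -Real.log r ≤ r ^ (-s) / s := by
  rcases hr.eq_or_lt with h | h
  · subst h
    simp [Real.zero_rpow (by linarith : (-s) ≠ 0)]
  · have h1 := Real.log_le_rpow_div (x := r⁻¹) (by positivity) hs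
    rw [Real.log_inv, Real.inv_rpow hr, ← Real.rpow_neg hr] at h1
    exact h1

lemma sq_log_le (s r : ℝ) (hs : 0 < s) (hr : 0 ≤ r) :
    Real.log r ^ 2 ≤ (2 / s) ^ 2 * r ^ (-s) + 4 * r := by
  rcases hr.eq_or_lt with h | h
  · subst h
    simp [Real.zero_rpow (by linarith : (-s) ≠ 0)]
  · rcases le_total r 1 with h1 | h1
    · have h2 := neg_log_le (s / 2) r (by linarith) hr
      have h3 : 0 ≤ -Real.log r := by
        have := Real.log_nonpos hr h1
        linarith
      have h4 : Real.log r ^ 2 ≤ (r ^ (-(s / 2)) / (s / 2)) ^ 2 := by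
        rw [← neg_sq]
        exact pow_le_pow_left₀ h3 h2 2
      have h5 : (r ^ (-(s / 2)) / (s / 2)) ^ 2 = (2 / s) ^ 2 * r ^ (-s) := by
        have : (r ^ (-(s / 2))) ^ 2 = r ^ (-s) := by
          rw [← Real.rpow_natCast, ← Real.rpow_mul hr]
          congr 1
          push_cast
          ring
        rw [div_pow, this]
        field_simp
      rw [h5] at h4
      nlinarith
    · have h2 := Real.log_le_rpow_div hr (show (0:ℝ) < 1 / 2 by norm_num)
      have h3 : 0 ≤ Real.log r := Real.log_nonneg h1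
      have h4 : Real.log r ^ 2 ≤ (r ^ (1 / 2 : ℝ) / (1 / 2)) ^ 2 := pow_le_pow_left₀ h3 h2 2
      have h5 : (r ^ (1 / 2 : ℝ) / (1 / 2)) ^ 2 = 4 * r := by
        have : (r ^ (1 / 2 : ℝ)) ^ 2 = r := by
          rw [← Real.rpow_natCast, ← Real.rpow_mul hr]
          norm_num
        rw [div_pow, this]
        ring
      have h6 : 0 ≤ (2 / s) ^ 2 * r ^ (-s) := by positivity
      linarith

lemma meas_log {n : ℕ} (x : E n) : Measurable (fun y : E n => Real.log ‖x - y‖) := by
  fun_prop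

lemma log_sub_le {n : ℕ} (x y : E n) :
    Real.log ‖x - y‖ ≤ Real.log (1 + ‖x‖) + Real.log (1 + ‖y‖) := by
  have hx := norm_nonneg x
  have hy := norm_nonneg y
  rcases (norm_nonneg (x - y)).eq_or_lt with h | h
  · rw [← h, Real.log_zero]
    have h1 := Real.log_nonneg (show (1:ℝ) ≤ 1 + ‖x‖ by linarith)
    have h2 := Real.log_nonneg (show (1:ℝ) ≤ 1 + ‖y‖ by linarith)
    linarith
  · rw [← Real.log_mul (by positivity) (by positivity)]
    apply Real.log_le_log h
    have := norm_sub_le x y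
    nlinarith

lemma int_norm_sub {n : ℕ} {ν : Measure (E n)} {s M : ℝ} (hg : Good ν s M) (x : E n) :
    Integrable (fun y => ‖x - y‖) ν := by
  have := hg.fin
  have h1 : Integrable (fun y : E n => ‖x‖ + ‖y‖) ν := (integrable_const _).add hg.mom
  refine h1.mono' (by fun_prop) (Eventually.of_forall fun y => ?_)
  rw [norm_norm]
  exact norm_sub_le x y

theorem memLp_log {n : ℕ} {ν : Measure (E n)} {s M : ℝ} (hs : 0 < s) (hg : Good ν s M)
    (x : E n) : MemLp (fun y => Real.log ‖x - y‖) 2 ν := by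
  have := hg.fin
  rw [memLp_two_iff_integrable_sq (meas_log x).aestronglyMeasurable]
  have h1 : Integrable (fun y : E n => (2 / s) ^ 2 * ‖x - y‖ ^ (-s) + 4 * ‖x - y‖) ν :=
    ((hg.rint x).const_mul _).add ((int_norm_sub hg x).const_mul _)
  refine h1.mono' ((meas_log x).pow_const 2).aestronglyMeasurable (Eventually.of_forall fun y => ?_)
  rw [Real.norm_of_nonneg (sq_nonneg _)]
  exact sq_log_le s _ hs (norm_nonneg _)

theorem int_log {n : ℕ} {ν : Measure (E n)} {s M : ℝ} (hs : 0 < s) (hg : Good ν s M)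
    (x : E n) : Integrable (fun y => Real.log ‖x - y‖) ν := by
  have := hg.fin
  exact (memLp_log hs hg x).integrable (by norm_num)

lemma dens_bd {n : ℕ} {ν : Measure (E n)} {θ : E n → ℝ} (hθ : Dens ν θ) :
    ∃ B : ℝ, 0 ≤ B ∧ ∀ x, θ x ≤ B := by
  obtain ⟨B, hB⟩ := hθ.bd
  exact ⟨B, (hθ.nn 0).trans (hB 0), hB⟩

lemma int_mul_dens {n : ℕ} {ν : Measure (E n)} {θ : E n → ℝ} (hθ : Dens ν θ) {f : E n → ℝ}
    (hf : Integrable f ν) : Integrable (fun y => f y * θ y) ν := by
  obtain ⟨B, hB0, hB⟩ := dens_bd hθ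
  refine hf.mul_bdd (c := B) hθ.meas.aestronglyMeasurable (Eventually.of_forall fun y => ?_)
  rw [Real.norm_of_nonneg (hθ.nn y)]
  exact hB y

lemma int_dens {n : ℕ} {ν : Measure (E n)} {θ : E n → ℝ} (hθ : Dens ν θ) : Integrable θ ν := by
  by_contra h
  have := hθ.one
  rw [integral_undef h] at this
  norm_num at this

theorem int_log_mul {n : ℕ} {ν : Measure (E n)} {s M : ℝ} (hs : 0 < s) (hg : Good ν s M)
    {θ : E n → ℝ} (hθ : Dens ν θ) (x : E n) :
    Integrable (fun y => -Real.log ‖x - y‖ * θ y) ν :=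
  int_mul_dens hθ (int_log hs hg x).neg

lemma int_log_one {n : ℕ} {ν : Measure (E n)} {s M : ℝ} (hg : Good ν s M) :
    Integrable (fun y : E n => Real.log (1 + ‖y‖)) ν := by
  refine hg.mom.mono' (by apply Measurable.aestronglyMeasurable; fun_prop) (Eventually.of_forall fun y => ?_)
  have hy := norm_nonneg y
  rw [Real.norm_of_nonneg (Real.log_nonneg (by linarith))]
  have := Real.log_le_sub_one_of_pos (show (0:ℝ) < 1 + ‖y‖ by linarith)
  linarith

/-- **QC3.** -/
theorem t_PB : S_PB := by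
  intro n ν s M hs hg
  have := hg.fin
  refine ⟨memLp_log hs hg, int_log_one hg, ?_⟩
  intro θ hθ
  refine ⟨?_, ?_, ?_⟩
  · have h1 : StronglyMeasurable (fun z : E n × E n => -Real.log ‖z.1 - z.2‖ * θ z.2) := by
      apply Measurable.stronglyMeasurable
      have := hθ.meas
      fun_prop
    exact (h1.integral_prod_right' (ν := ν)).measurable
  · obtain ⟨B, hB0, hB⟩ := dens_bd hθ
    refine ⟨B / s * M, fun x => ?_⟩
    calc Pot ν θ x ≤ ∫ y, B / s * ‖x - y‖ ^ (-s) ∂ν := by
          apply integral_mono (int_log_mul hs hg hθ x) ((hg.rint x).const_mul _)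
          intro y
          have h1 := neg_log_le s ‖x - y‖ hs (norm_nonneg _)
          have h2 : 0 ≤ ‖x - y‖ ^ (-s) / s := by positivity
          calc -Real.log ‖x - y‖ * θ y ≤ ‖x - y‖ ^ (-s) / s * θ y :=
                mul_le_mul_of_nonneg_right h1 (hθ.nn y)
            _ ≤ ‖x - y‖ ^ (-s) / s * B := mul_le_mul_of_nonneg_left (hB y) h2
            _ = B / s * ‖x - y‖ ^ (-s) := by ring
      _ = B / s * ∫ y, ‖x - y‖ ^ (-s) ∂ν := integral_const_mul _ _
      _ ≤ B / s * M := mul_le_mul_of_nonneg_left (hg.rb x) (by positivity)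
  · intro x
    have h1 : (∫ y, (-Real.log (1 + ‖x‖) * θ y - Real.log (1 + ‖y‖) * θ y) ∂ν) =
        -Real.log (1 + ‖x‖) - (∫ y, Real.log (1 + ‖y‖) * θ y ∂ν) := by
      rw [integral_sub ((int_dens hθ).const_mul _) (int_mul_dens hθ (int_log_one hg)),
        integral_const_mul, hθ.one, mul_one]
    rw [← h1]
    apply integral_mono (((int_dens hθ).const_mul _).sub (int_mul_dens hθ (int_log_one hg)))
      (int_log_mul hs hg hθ x)
    intro y
    have h2 := log_sub_le x y
    have h3 := hθ.nn y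
    show -Real.log (1 + ‖x‖) * θ y - Real.log (1 + ‖y‖) * θ y ≤ -Real.log ‖x - y‖ * θ y
    nlinarith

end

end Pool.Agent.E8helper63.QC
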